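import Pool.Agent.Work.MP_db9399_cl_helper26.PartRes

/-!
# MP_db9399, all scales, clusters: decomposition and parts of a near-regular graph (helper26)

`dec_q`: DECS and PARTS2 for graphs with `deg v + ex v = d`, `ex v ≤ x`, `x` small compared to the
smallest scale.
-/

set_option autoImplicit false

namespace Pool.Agent.Work.MP_db9399_cl.helper26

open Finset Classical
open Pool.Agent.Work.MP_db9399_all (nb)
open Pool.Agent.Work.MP_db9399_da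

universe u

/-- what DECS gives for the set `VH` (near-regular form) -/
def VHq {V : Type u} [Fintype V] {M : ℕ} (σ : ℝ) (G : SimpleGraph V) (ex : V → ℕ) (d : ℕ)
    (P : Pcs V M) (VH : Finset V) : Prop :=
  ∀ z ∈ VH, z ∈ P.V0 → P.rg z = none ∧
    (∀ n β, P.ty n = Ty.B → σ * d ≤ ((nb G z \ sV P n β).card : ℝ) + ex z) ∧
    ∀ n, P.ty n ≠ Ty.B → σ * d ≤ ((nb G z \ pV P n).card : ℝ) + ex z

/-- DECS and PARTS2 for near-regular graphs. -/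
def Stmt_DECQ : Prop :=
  ∀ C g : ℝ, 1 ≤ C → 0 < g → g ≤ 1 / 10 → ∃ (M : ℕ) (r K : ℝ → ℝ),
    (∀ ρ, 0 < ρ → ρ ≤ 1 → 0 < r ρ ∧ r ρ ≤ ρ ∧ 0 < K ρ) ∧
    ∀ (k : ℕ) (hε hz : ℝ → ℝ → ℝ) (ht : ℝ → ℝ → ℝ → ℝ),
    (∀ ρ σ, 0 < ρ → 0 < σ → 0 < hε ρ σ ∧ hε ρ σ ≤ 1) → (∀ ρ σ, 0 < ρ → 0 < σ → 0 < hz ρ σ) →
    (∀ ρ σ ζ, 0 < ρ → 0 < σ → 0 < ζ → 0 < ht ρ σ ζ) →
    ∃ (Rs Sg : Finset ℝ) (z t : ℝ → ℝ → ℝ) (d0 : ℕ),
      (∀ ρ ∈ Rs, 0 < ρ ∧ ρ ≤ 1) ∧ (∀ σ ∈ Sg, 0 < σ ∧ σ ≤ 1 / 100) ∧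
      (∀ ρ ∈ Rs, ∀ σ ∈ Sg, 0 < z ρ σ ∧ z ρ σ ≤ hz ρ σ ∧ z ρ σ ≤ σ / 100 ∧ 0 < t ρ σ ∧
        t ρ σ ≤ ht ρ σ (z ρ σ)) ∧
      ∀ {V : Type u} [Fintype V] (G : SimpleGraph V) (ex : V → ℕ) (d x : ℕ) (VH : Finset V),
        d0 ≤ d → (∀ v, (nb G v).card + ex v = d) → (∀ v, ex v ≤ x) →
        10 * x ≤ d → (∀ ρ ∈ Rs, (x : ℝ) ≤ ρ / 10 * d) → d + 1 ≤ 2 * Fintype.card V →
        (Fintype.card V : ℝ) ≤ C * d → VH.card ≤ k →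
        ∃ ρ ∈ Rs, ∃ σ ∈ Sg, ∃ P : Pcs V M,
          DecQ C g ρ (z ρ σ) (t ρ σ) G ex d P ∧ PartL (r ρ) (hε ρ σ) G d P ∧
          PartQ (K ρ) (z ρ σ) (hε ρ σ) (K ρ / hε ρ σ * (t ρ σ * d)) G ex d P ∧
          VHq σ G ex d P VH

theorem vh_res {V W : Type u} [Fintype V] [Fintype W] {M x d : ℕ} {G : SimpleGraph V}
    {ex : V → ℕ} {G' : SimpleGraph W} {f : V → W} (hE : ExtP x d G ex G' f) (P : Pcs W M)
    (hP : Pure f P) (VH : Finset V) (σ : ℝ) (hσ : σ ≤ 1)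
    (h : ∀ z ∈ VH.map (emb hE.inj), z ∈ P.V0 → P.rg z = none ∧
      (∀ n β, P.ty n = Ty.B → σ * d ≤ ((nb G' z \ sV P n β).card : ℝ)) ∧
      ∀ n, P.ty n ≠ Ty.B → σ * d ≤ ((nb G' z \ pV P n).card : ℝ)) :
    VHq σ G ex d (res f P) VH := by
  intro z hz hz0
  have hz' : f z ∈ P.V0 := (mem_V0 f P z).1 hz0
  obtain ⟨h1, h2, h3⟩ := h (f z) (mem_map_of_mem (emb hE.inj) hz) hz'
  have hd : σ * d ≤ d := by
    have : (0 : ℝ) ≤ d := Nat.cast_nonneg d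
    nlinarith
  refine ⟨h1, fun n β hn => ?_, fun n hn => ?_⟩
  · obtain ⟨h4, h5⟩ := nty f P n _ (by decide) hn
    have h6 := h2 n β h5
    rw [← map_sV hE.inj P hP n h4 β, nb_sdiff hE] at h6
    push_cast at h6
    exact h6
  · by_cases h4 : ∃ v, f v ∉ P.V0 ∧ P.pc (f v) = n
    · have h5 : P.ty n ≠ Ty.B := by
        obtain ⟨v, hv, hvn⟩ := h4
        rw [← ty_res f P n v hv hvn]
        exact hn
      have h6 := h3 n h5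
      rw [← map_pV hE.inj P hP n h4, nb_sdiff hE] at h6
      push_cast at h6
      exact h6
    · have h5 : pV (res f P) n = ∅ := by
        rw [pV, filter_eq_empty_iff]
        rintro v _ ⟨hv1, hv2⟩
        exact h4 ⟨v, fun h => hv1 ((mem_V0 f P v).2 h), hv2⟩
      rw [h5, sdiff_empty]
      have h6 : ((nb G z).card : ℝ) + ex z = d := by exact_mod_cast hE.deg z
      linarith

theorem vh_same {V : Type u} [Fintype V] {M : ℕ} {σ : ℝ} {G : SimpleGraph V} {d : ℕ}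
    {P P' : Pcs V M} {VH : Finset V} (hS : SameP P P')
    (h : ∀ z ∈ VH, z ∈ P.V0 → P.rg z = none ∧
      (∀ n β, P.ty n = Ty.B → σ * d ≤ ((nb G z \ sV P n β).card : ℝ)) ∧
      ∀ n, P.ty n ≠ Ty.B → σ * d ≤ ((nb G z \ pV P n).card : ℝ)) :
    ∀ z ∈ VH, z ∈ P'.V0 → P'.rg z = none ∧
      (∀ n β, P'.ty n = Ty.B → σ * d ≤ ((nb G z \ sV P' n β).card : ℝ)) ∧
      ∀ n, P'.ty n ≠ Ty.B → σ * d ≤ ((nb G z \ pV P' n).card : ℝ) := by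
  obtain ⟨hV0, hpc, hty, hrg, hsd⟩ := hS
  intro z hz hz0
  rw [hV0] at hz0
  obtain ⟨h1, h2, h3⟩ := h z hz hz0
  refine ⟨by rw [hrg]; exact h1, fun n β hn => ?_, fun n hn => ?_⟩
  · rw [hty] at hn
    have h4 : sV P' n β = sV P n β := by
      ext v
      rw [sV, sV, mem_filter, mem_filter, hV0, hpc]
      constructor
      · rintro ⟨_, ha, hb, hc⟩
        refine ⟨mem_univ _, ha, hb, ?_⟩
        rw [← hsd v (by rw [hb]; exact hn)]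
        exact hc
      · rintro ⟨_, ha, hb, hc⟩
        refine ⟨mem_univ _, ha, hb, ?_⟩
        rw [hsd v (by rw [hb]; exact hn)]
        exact hc
    rw [h4]
    exact h2 n β hn
  · rw [hty] at hn
    have h4 : pV P' n = pV P n := by
      rw [pV, pV, hV0, hpc]
    rw [h4]
    exact h3 n hn

/-- DECS and PARTS2 for near-regular graphs. -/
theorem dec_q (hDECS : Stmt_DECS.{u}) (hPARTS : Stmt_PARTS2.{u}) : Stmt_DECQ.{u} := by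
  intro C g hC hg hg1
  have hC' : 1 ≤ 10 * C := by linarith
  obtain ⟨M, hM⟩ := hDECS (10 * C) g hC' hg hg1
  have hP : ∀ ρ : ℝ, ∃ r K : ℝ, 0 < ρ → ρ ≤ 1 → 0 < r ∧ r ≤ ρ ∧ 0 < K ∧
      ∀ ε : ℝ, 0 < ε → ε ≤ 1 → ∃ ζ0 : ℝ, 0 < ζ0 ∧
      ∀ ζ : ℝ, 0 < ζ → ζ ≤ ζ0 → ∃ θ0 : ℝ, 0 < θ0 ∧ ∀ θ : ℝ, 0 < θ → θ ≤ θ0 → ∃ d0 : ℕ,
      ∀ {V : Type u} [Fintype V] (G : SimpleGraph V) (d : ℕ) (P : Pcs V M), d0 ≤ d →
        DecP (10 * C) g ρ ζ θ G d P →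
        ∃ P' : Pcs V M, SameP P P' ∧ DecP (10 * C) g ρ ζ θ G d P' ∧ PartL r ε G d P' ∧
          PartD K ζ ε G d P' := by
    intro ρ
    by_cases h : 0 < ρ ∧ ρ ≤ 1
    · obtain ⟨r, K, h1, h2, h3, h4⟩ := hPARTS (10 * C) g ρ M hC' hg hg1 h.1 h.2
      exact ⟨r, K, fun _ _ => ⟨h1, h2, h3, h4⟩⟩
    · exact ⟨1, 1, fun a b => absurd ⟨a, b⟩ h⟩
  choose r K hrK using hP
  refine ⟨M, r, K, fun ρ h1 h2 => ⟨(hrK ρ h1 h2).1, (hrK ρ h1 h2).2.1, (hrK ρ h1 h2).2.2.1⟩, ?_⟩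
  intro k hε hz ht hε1 hz1 ht1
  have h2 : ∀ ρ σ : ℝ, ∃ ζ : ℝ, 0 < ρ → 0 < σ → (0 < ζ ∧ ζ ≤ hz ρ σ ∧ ζ ≤ σ / 100 ∧
      ζ ≤ 1 / 100 ∧ (ρ ≤ 1 → ∃ θ0 : ℝ, 0 < θ0 ∧ ∀ θ : ℝ, 0 < θ → θ ≤ θ0 → ∃ d0 : ℕ,
      ∀ {V : Type u} [Fintype V] (G : SimpleGraph V) (d : ℕ) (P : Pcs V M), d0 ≤ d →
        DecP (10 * C) g ρ ζ θ G d P →
        ∃ P' : Pcs V M, SameP P P' ∧ DecP (10 * C) g ρ ζ θ G d P' ∧
          PartL (r ρ) (hε ρ σ) G d P' ∧ PartD (K ρ) ζ (hε ρ σ) G d P')) := by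
    intro ρ σ
    by_cases h : 0 < ρ ∧ 0 < σ
    · have e1 := hz1 ρ σ h.1 h.2
      have e2 := hε1 ρ σ h.1 h.2
      by_cases h' : ρ ≤ 1
      · obtain ⟨ζ0, h3, h4⟩ := (hrK ρ h.1 h').2.2.2 (hε ρ σ) e2.1 e2.2
        have hσ := h.2
        refine ⟨min (min ζ0 (hz ρ σ)) (min (σ / 100) (1 / 100)), fun _ _ => ⟨?_, ?_, ?_, ?_, ?_⟩⟩
        · exact lt_min (lt_min h3 e1) (lt_min (by linarith) (by norm_num))
        · exact (min_le_left _ _).trans (min_le_right _ _)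
        · exact (min_le_right _ _).trans (min_le_left _ _)
        · exact (min_le_right _ _).trans (min_le_right _ _)
        · intro _
          refine h4 _ (lt_min (lt_min h3 e1) (lt_min (by linarith) (by norm_num))) ?_
          exact (min_le_left _ _).trans (min_le_left _ _)
      · have hσ := h.2
        refine ⟨min (hz ρ σ) (min (σ / 100) (1 / 100)),
          fun _ _ => ⟨?_, ?_, ?_, ?_, fun a => absurd a h'⟩⟩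
        · exact lt_min e1 (lt_min (by linarith) (by norm_num))
        · exact min_le_left _ _
        · exact (min_le_right _ _).trans (min_le_left _ _)
        · exact (min_le_right _ _).trans (min_le_right _ _)
    · exact ⟨1, fun a b => absurd ⟨a, b⟩ h⟩
  choose z hz2 using h2
  have h3 : ∀ ρ σ : ℝ, ∃ θ : ℝ, 0 < ρ → 0 < σ → (0 < θ ∧ θ ≤ ht ρ σ (z ρ σ) ∧
      (ρ ≤ 1 → ∃ d0 : ℕ,
      ∀ {V : Type u} [Fintype V] (G : SimpleGraph V) (d : ℕ) (P : Pcs V M), d0 ≤ d →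
        DecP (10 * C) g ρ (z ρ σ) θ G d P →
        ∃ P' : Pcs V M, SameP P P' ∧ DecP (10 * C) g ρ (z ρ σ) θ G d P' ∧
          PartL (r ρ) (hε ρ σ) G d P' ∧ PartD (K ρ) (z ρ σ) (hε ρ σ) G d P')) := by
    intro ρ σ
    by_cases h : 0 < ρ ∧ 0 < σ
    · have e0 := hz2 ρ σ h.1 h.2
      have e1 := ht1 ρ σ (z ρ σ) h.1 h.2 e0.1
      by_cases h' : ρ ≤ 1
      · obtain ⟨θ0, h3, h4⟩ := e0.2.2.2.2 h'
        refine ⟨min θ0 (ht ρ σ (z ρ σ)), fun _ _ => ⟨lt_min h3 e1, min_le_right _ _, fun _ => ?_⟩⟩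
        exact h4 _ (lt_min h3 e1) (min_le_left _ _)
      · exact ⟨ht ρ σ (z ρ σ), fun _ _ => ⟨e1, le_refl _, fun a => absurd a h'⟩⟩
    · exact ⟨1, fun a b => absurd ⟨a, b⟩ h⟩
  choose t ht2 using h3
  have h4 : ∀ ρ σ : ℝ, ∃ d0 : ℕ, 0 < ρ → 0 < σ → ρ ≤ 1 →
      ∀ {V : Type u} [Fintype V] (G : SimpleGraph V) (d : ℕ) (P : Pcs V M), d0 ≤ d →
        DecP (10 * C) g ρ (z ρ σ) (t ρ σ) G d P →
        ∃ P' : Pcs V M, SameP P P' ∧ DecP (10 * C) g ρ (z ρ σ) (t ρ σ) G d P' ∧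
          PartL (r ρ) (hε ρ σ) G d P' ∧ PartD (K ρ) (z ρ σ) (hε ρ σ) G d P' := by
    intro ρ σ
    by_cases h : 0 < ρ ∧ 0 < σ ∧ ρ ≤ 1
    · obtain ⟨d0, h5⟩ := (ht2 ρ σ h.1 h.2.1).2.2 h.2.2
      exact ⟨d0, fun _ _ _ => h5⟩
    · exact ⟨0, fun a b c => absurd ⟨a, b, c⟩ h⟩
  choose dd hdd using h4
  obtain ⟨Rs, Sg, d0, hRs, hSg, hD⟩ := hM k z t
    (fun x s hx hs => ⟨(hz2 x s hx hs).1, (hz2 x s hx hs).2.2.1, (ht2 x s hx hs).1⟩)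
  refine ⟨Rs, Sg, z, t, max (d0 + 1) ((Rs ×ˢ Sg).sup fun p => dd p.1 p.2), hRs, hSg, ?_, ?_⟩
  · intro ρ hρ σ hσ
    have e1 := hz2 ρ σ (hRs ρ hρ).1 (hSg σ hσ).1
    have e2 := ht2 ρ σ (hRs ρ hρ).1 (hSg σ hσ).1
    exact ⟨e1.1, e1.2.1, e1.2.2.1, e2.1, e2.2.1⟩
  · intro V _ G ex d x VH hd hdeg hx hx10 hxρ hV hVC hVH
    have hd1 : d0 + 1 ≤ d := (le_max_left _ _).trans hd
    have hd2 : ((Rs ×ˢ Sg).sup fun p => dd p.1 p.2) ≤ d := (le_max_right _ _).trans hd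
    have hdR : (1 : ℝ) ≤ d := by
      have : 1 ≤ d := by omega
      exact_mod_cast this
    have hxd : x < d := by omega
    obtain ⟨W, _, G', f, hE, hcW⟩ := ext_exists G d x ex hdeg hx hxd hV
    have hWC : (Fintype.card W : ℝ) ≤ 10 * C * d := by
      have h5 : (Fintype.card W : ℝ) ≤ 10 * Fintype.card V := by exact_mod_cast hcW
      nlinarith
    obtain ⟨ρ, hρ, σ, hσ, P, hDP, hPV⟩ := hD G' d (VH.map (emb hE.inj)) (by omega) hE.reg hWC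
      (by rw [card_map]; exact hVH)
    have e1 := hz2 ρ σ (hRs ρ hρ).1 (hSg σ hσ).1
    have hdd1 : dd ρ σ ≤ d :=
      (Finset.le_sup (f := fun p : ℝ × ℝ => dd p.1 p.2) (mem_product.2 ⟨hρ, hσ⟩ :
        (ρ, σ) ∈ Rs ×ˢ Sg)).trans hd2
    obtain ⟨P', hS, hD', hL, hPD⟩ := hdd ρ σ (hRs ρ hρ).1 (hSg σ hσ).1 (hRs ρ hρ).2 G' d P hdd1
      hDP
    have hd1' : 1 ≤ d := by omega
    have hPure : Pure f P' := pure_of hE hD' (hRs ρ hρ).1 (hRs ρ hρ).2 hg1 e1.2.2.2.1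
      (hxρ ρ hρ) hd1'
    have hQ := decq_res hE hD' (hRs ρ hρ).1 (hRs ρ hρ).2 hg1 e1.2.2.2.1 (hxρ ρ hρ) hd1'
    have hK := (hrK ρ (hRs ρ hρ).1 (hRs ρ hρ).2).2.2.1
    have hεp := (hε1 ρ σ (hRs ρ hρ).1 (hSg σ hσ).1).1
    refine ⟨ρ, hρ, σ, hσ, res f P', { hQ with siz := hVC }, partl_res hE hPure hL,
      partq_res hE hPure hPD ?_, ?_⟩
    · exact mul_le_mul_of_nonneg_left hD'.V0c (div_pos hK hεp).le
    · exact vh_res hE P' hPure VH σ (by have := (hSg σ hσ).2; linarith) (vh_same hS hPV)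

end Pool.Agent.Work.MP_db9399_cl.helper26
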