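import Pool.Agent.Work.MP_db9399_da.Frame2
import Pool.Agent.Work.MP_db9399_da_helper93.EMB

/-!
# MP_db9399, all scales, clusters: near-regular graphs inside regular graphs (helper26)

`deg v + ex v = d`, `ex v ≤ x`. The regular supergraph of EMB has at most `x` neighbours in `V` at
every new vertex.
-/

set_option autoImplicit false

namespace Pool.Agent.Work.MP_db9399_cl.helper26

open Finset Classical
open Pool.Agent.Work.MP_db9399_all (nb)
open Pool.Agent.Work.MP_db9399_da
open Pool.Agent.Work.MP_db9399_da.helper93

universe u

/-- a regular supergraph of the near-regular graph `G` -/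
structure ExtP {V W : Type u} [Fintype V] [Fintype W] (x d : ℕ) (G : SimpleGraph V) (ex : V → ℕ)
    (G' : SimpleGraph W) (f : V → W) : Prop where
  inj : Function.Injective f
  adj : ∀ v w, G'.Adj (f v) (f w) ↔ G.Adj v w
  reg : ∀ w, (nb G' w).card = d
  deg : ∀ v, (nb G v).card + ex v = d
  exx : ∀ v, ex v ≤ x
  gad : ∀ w, w ∉ Set.range f → (univ.filter (fun v => G'.Adj w (f v))).card ≤ x

theorem mem_nb {V : Type u} [Fintype V] (G : SimpleGraph V) (v w : V) :
    w ∈ nb G v ↔ G.Adj v w := by
  rw [nb, mem_filter]
  exact ⟨fun h => h.2, fun h => ⟨mem_univ _, h⟩⟩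

theorem ext_exists {V : Type u} [Fintype V] (G : SimpleGraph V) (d x : ℕ) (ex : V → ℕ)
    (hdeg : ∀ v, (nb G v).card + ex v = d) (hx : ∀ v, ex v ≤ x) (hxd : x < d)
    (hV : d + 1 ≤ 2 * Fintype.card V) :
    ∃ (W : Type u) (_ : Fintype W) (G' : SimpleGraph W) (f : V → W), ExtP x d G ex G' f ∧
      Fintype.card W ≤ 10 * Fintype.card V := by
  obtain ⟨m, hm⟩ : ∃ m, m = Fintype.card V + d + 1 := ⟨_, rfl⟩
  have : NeZero m := ⟨by omega⟩
  have hmc : Fintype.card (ZMod m) = m := ZMod.card m
  obtain ⟨N, q, hN, hL⟩ := robin (U := ZMod m) ex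
    (fun v => by rw [hmc]; have := hx v; omega) (univ : Finset V)
  set L : ZMod m → ℕ := fun u => (univ.filter (fun v => u ∈ N v)).card with hLd
  have hsum : ∑ u, L u = ∑ v, ex v := by
    have h1 : ∀ v, ex v = ∑ u, if u ∈ N v then 1 else 0 := by
      intro v
      rw [← hN v (mem_univ _), ← card_filter]
      congr 1
      ext u
      simp
    simp only [h1, hLd, card_filter]
    rw [sum_comm]
  have hV0 : 0 < Fintype.card V := by omega
  have hqx : ∀ u, L u ≤ x := by
    intro u
    rcases Nat.eq_zero_or_pos x with h0 | h0
    · have h1 : ∑ u, L u = 0 := by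
        rw [hsum]
        refine sum_eq_zero fun v _ => ?_
        have := hx v
        omega
      have h2 := (sum_eq_zero_iff.1 h1) u (mem_univ _)
      omega
    · have h1 : q < x := by
        by_contra hcon
        have h2 : ∑ _u : ZMod m, x ≤ ∑ u, L u := by
          apply sum_le_sum
          intro u _
          have := hL u
          change L u = q ∨ L u = q + 1 at this
          omega
        have h3 : ∑ v, ex v ≤ ∑ _v : V, x := sum_le_sum (fun v _ => hx v)
        rw [hsum] at h2
        have h4 := h2.trans h3
        simp only [sum_const, card_univ, hmc, smul_eq_mul] at h4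
        have h5 := Nat.le_of_mul_le_mul_right h4 h0
        omega
      have := hL u
      change L u = q ∨ L u = q + 1 at this
      omega
  have hq : q + 1 ≤ d := by
    by_contra hcon
    have := hL 0
    change L 0 = q ∨ L 0 = q + 1 at this
    have h2 := hqx 0
    omega
  obtain ⟨R, hR1, hR2⟩ := circ m (d - q - 1) (by omega) (univ.filter (fun u => L u = q))
  have ha : ∀ u, L u + (d - q - 1 + if u ∈ univ.filter (fun u => L u = q) then 1 else 0) = d := by
    intro u
    have := hL u
    change L u = q ∨ L u = q + 1 at this
    split_ifs with h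
    · simp only [mem_filter, mem_univ, true_and] at h
      omega
    · simp only [mem_filter, mem_univ, true_and] at h
      omega
  refine ⟨Bool × (V ⊕ ZMod m), inferInstance, helper93.sup G N R, fun v => (false, Sum.inl v),
    ⟨?_, ?_, ?_, hdeg, hx, ?_⟩, ?_⟩
  · intro v w h
    simpa using h
  · intro v w
    exact ⟨fun h => h.2, fun h => ⟨rfl, h⟩⟩
  · rintro ⟨b, v | u⟩
    · have e : (nb (helper93.sup G N R) (b, Sum.inl v)).card = (nb G v).card + (N v).card := by
        rw [card_nb, Fintype.sum_prod_type]
        simp only [Fintype.sum_sum_type, Fintype.sum_bool]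
        have : (N v).card = ∑ u, if u ∈ N v then 1 else 0 := by
          rw [← card_filter]
          congr 1
          ext u
          simp
        rw [this, card_nb]
        cases b <;> simp [helper93.sup]
      rw [e, hN v (mem_univ _)]
      exact hdeg v
    · have e : (nb (helper93.sup G N R) (b, Sum.inr u)).card = d := by
        rw [card_nb, Fintype.sum_prod_type]
        simp only [Fintype.sum_sum_type, Fintype.sum_bool]
        cases b
        · rw [← ha u, ← hR1 u, hLd]
          simp only [card_filter]
          simp [helper93.sup, add_comm]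
        · rw [← ha u, ← hR2 u, hLd]
          simp only [card_filter]
          simp [helper93.sup, add_comm]
      exact e
  · rintro ⟨b, v | u⟩ hw
    · have h1 : univ.filter (fun v' => (helper93.sup G N R).Adj (b, Sum.inl v)
          (false, Sum.inl v')) = ∅ := by
        rw [filter_eq_empty_iff]
        intro v' _ h
        apply hw
        exact ⟨v, by rw [h.1]⟩
      rw [h1, card_empty]
      exact Nat.zero_le _
    · refine le_trans (card_le_card ?_) (hqx u)
      intro v' hv'
      rw [mem_filter] at hv' ⊢
      exact ⟨mem_univ _, hv'.2.2⟩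
  · simp only [Fintype.card_prod, Fintype.card_bool, Fintype.card_sum, hmc]
    omega

end Pool.Agent.Work.MP_db9399_cl.helper26
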