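import Pool.Agent.Work.MP_db9399_cl_helper26.Pure

/-!
# MP_db9399, all scales, clusters: restriction of `PartL`, `PartD` (helper26)
-/

set_option autoImplicit false
set_option linter.unusedSectionVars false

namespace Pool.Agent.Work.MP_db9399_cl.helper26

open Finset Classical
open Pool.Agent.Work.MP_db9399_all (nb)
open Pool.Agent.Work.MP_db9399_da

universe u

theorem filt_map {A B : Type u} [Fintype A] [Fintype B] (e : A ≃ B) (p : A → Prop) (q : B → Prop)
    [DecidablePred p] [DecidablePred q] (h : ∀ a, q (e a) ↔ p a) :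
    (univ.filter q : Finset B) = (univ.filter p).map e.toEmbedding := by
  ext b
  rw [mem_map, mem_filter]
  constructor
  · rintro ⟨_, hb⟩
    refine ⟨e.symm b, mem_filter.2 ⟨mem_univ _, ?_⟩, e.apply_symm_apply b⟩
    rw [← h, e.apply_symm_apply]
    exact hb
  · rintro ⟨a, ha, rfl⟩
    exact ⟨mem_univ _, (h a).2 (mem_filter.1 ha).2⟩

section res
variable {V W : Type u} [Fintype V] [Fintype W] {M : ℕ}

theorem prt_eT {f : V → W} (hf : Function.Injective f) (P : Pcs W M) (hP : Pure f P)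
    (n : Fin M) (hn : ∃ v, f v ∉ P.V0 ∧ P.pc (f v) = n) (i : Bool) :
    prt (ptn P n) i = (prt (ptn (res f P) n) i).map (eT f hf P hP n hn).toEmbedding := by
  unfold prt
  exact filt_map (eT f hf P hP n hn) (fun a => ptn (res f P) n a = i)
    (fun b => ptn P n b = i) fun _ => Iff.rfl

theorem qtr_eT {f : V → W} (hf : Function.Injective f) (P : Pcs W M) (hP : Pure f P)
    (n : Fin M) (hn : ∃ v, f v ∉ P.V0 ∧ P.pc (f v) = n) (β i : Bool) :
    qtr (sdn P n) (ptn P n) β i =
      (qtr (sdn (res f P) n) (ptn (res f P) n) β i).map (eT f hf P hP n hn).toEmbedding := by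
  unfold qtr
  exact filt_map (eT f hf P hP n hn)
    (fun a => sdn (res f P) n a = β ∧ ptn (res f P) n a = i)
    (fun b => sdn P n b = β ∧ ptn P n b = i) fun _ => Iff.rfl

theorem cell_eT {f : V → W} (hf : Function.Injective f) (P : Pcs W M) (hP : Pure f P)
    (n : Fin M) (hn : ∃ v, f v ∉ P.V0 ∧ P.pc (f v) = n) (i : Fin 3) (l : Bool) :
    MP_db9399_lt.cell (thn P n) (sdn P n) i l =
      (MP_db9399_lt.cell (thn (res f P) n) (sdn (res f P) n) i l).map
        (eT f hf P hP n hn).toEmbedding := by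
  unfold MP_db9399_lt.cell
  exact filt_map (eT f hf P hP n hn)
    (fun a => thn (res f P) n a = i ∧ sdn (res f P) n a = l)
    (fun b => thn P n b = i ∧ sdn P n b = l) fun _ => Iff.rfl

theorem nty (f : V → W) (P : Pcs W M) (n : Fin M) (T : Ty) (hT : T ≠ Ty.E)
    (h : (res f P).ty n = T) : (∃ v, f v ∉ P.V0 ∧ P.pc (f v) = n) ∧ P.ty n = T := by
  have h1 := ty_ne f P n (by rw [h]; exact hT)
  obtain ⟨v, hv, hvn⟩ := h1
  refine ⟨⟨v, hv, hvn⟩, ?_⟩
  rw [← ty_res f P n v hv hvn]
  exact h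

theorem nty2 (f : V → W) (P : Pcs W M) (n : Fin M)
    (h : (res f P).ty n = Ty.N ∨ (res f P).ty n = Ty.B) :
    (∃ v, f v ∉ P.V0 ∧ P.pc (f v) = n) ∧ (P.ty n = Ty.N ∨ P.ty n = Ty.B) := by
  rcases h with h | h
  · obtain ⟨h1, h2⟩ := nty f P n _ (by decide) h
    exact ⟨h1, Or.inl h2⟩
  · obtain ⟨h1, h2⟩ := nty f P n _ (by decide) h
    exact ⟨h1, Or.inr h2⟩

/-- Restriction of `PartL`. -/
theorem partl_res {x d : ℕ} {G : SimpleGraph V} {ex : V → ℕ} {G' : SimpleGraph W} {f : V → W}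
    {ρ ε : ℝ} {P : Pcs W M} (hE : ExtP x d G ex G' f) (hP : Pure f P)
    (hL : PartL ρ ε G' d P) : PartL ρ ε G d (res f P) := by
  refine { cutP := ?_, nS := ?_, nD := ?_, bB := ?_, bS := ?_, bD := ?_, kC := ?_ }
  · intro n hn i S hS
    obtain ⟨h1, h2⟩ := nty2 f P n hn
    have h3 := hL.cutP n h2 i (S.map (eT f hE.inj P hP n h1).toEmbedding) (by
      rw [prt_eT hE.inj P hP n h1 i]
      exact map_subset_map.2 hS)
    rw [prt_eT hE.inj P hP n h1 i, ← Finset.map_sdiff, card_map, card_map, sum_map] at h3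
    refine h3.trans (le_of_eq (sum_congr rfl fun v _ => ?_))
    rw [Equiv.toEmbedding_apply, nb_eT hE P hP n h1 v, ← Finset.map_sdiff,
      qtr_eT hE.inj P hP n h1, ← Finset.map_inter, card_map]
    rfl
  · intro n hn β i
    obtain ⟨h1, h2⟩ := nty f P n _ (by decide) hn
    have h3 := hL.nS n h2 β i
    rw [qtr_eT hE.inj P hP n h1, card_map, ← card_eT hE.inj P hP n h1] at h3
    exact h3
  · intro n hn v β i
    obtain ⟨h1, h2⟩ := nty f P n _ (by decide) hn
    have h3 := hL.nD n h2 (eT f hE.inj P hP n h1 v) β i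
    rw [nb_eT hE P hP n h1 v, qtr_eT hE.inj P hP n h1, ← Finset.map_inter, card_map] at h3
    exact h3
  · intro n hn i
    obtain ⟨h1, h2⟩ := nty f P n _ (by decide) hn
    have h3 := hL.bB n h2 i
    rw [qtr_eT hE.inj P hP n h1, qtr_eT hE.inj P hP n h1, card_map, card_map] at h3
    exact h3
  · intro n hn i
    obtain ⟨h1, h2⟩ := nty f P n _ (by decide) hn
    have h3 := hL.bS n h2 i
    rw [qtr_eT hE.inj P hP n h1, qtr_eT hE.inj P hP n h1, card_map, card_map] at h3
    exact h3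
  · intro n hn v i
    obtain ⟨h1, h2⟩ := nty f P n _ (by decide) hn
    have h3 := hL.bD n h2 (eT f hE.inj P hP n h1 v) i
    rw [nb_eT hE P hP n h1 v, prt_eT hE.inj P hP n h1, ← Finset.map_inter, card_map] at h3
    exact h3
  · intro n hn i l
    obtain ⟨h1, h2⟩ := nty f P n _ (by decide) hn
    have h3 := hL.kC n h2 i l
    rw [cell_eT hE.inj P hP n h1, card_map, ← card_eT hE.inj P hP n h1] at h3
    exact h3

/-! ## Cells -/

theorem res_empty (f : V → W) (P : Pcs W M) (n : Fin M)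
    (hn : ¬ ∃ v, f v ∉ P.V0 ∧ P.pc (f v) = n) : pV (res f P) n = ∅ := by
  rw [pV, filter_eq_empty_iff]
  intro v _ h
  exact hn ⟨v, fun h' => h.1 ((mem_V0 f P v).2 h'), h.2⟩

theorem sV_sub (P : Pcs V M) (n : Fin M) (β : Bool) : sV P n β ⊆ pV P n := by
  intro v hv
  rw [sV, mem_filter] at hv
  rw [pV, mem_filter]
  exact ⟨mem_univ _, hv.2.1, hv.2.2.1⟩

theorem cel_sub (P : Pcs V M) (n : Fin M) (β : Bool) : cel P n β ⊆ pV P n := by
  unfold cel
  split_ifs
  · exact Subset.refl _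
  · exact sV_sub P n β

theorem cel_empty (f : V → W) (P : Pcs W M) (n : Fin M) (β : Bool)
    (hn : ¬ ∃ v, f v ∉ P.V0 ∧ P.pc (f v) = n) : cel (res f P) n β = ∅ :=
  subset_empty.1 (res_empty f P n hn ▸ cel_sub (res f P) n β)

theorem clb_empty (f : V → W) (P : Pcs W M) (n : Fin M) (β : Bool) (i : Fin 3)
    (hn : ¬ ∃ v, f v ∉ P.V0 ∧ P.pc (f v) = n) : clb (res f P) n β i = ∅ := by
  rw [clb, cel_empty f P n β hn, filter_empty]

theorem ty_eq (f : V → W) (P : Pcs W M) (n : Fin M)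
    (hn : ∃ v, f v ∉ P.V0 ∧ P.pc (f v) = n) : (res f P).ty n = P.ty n := by
  obtain ⟨v, hv, hvn⟩ := hn
  exact ty_res f P n v hv hvn

theorem cel_map {f : V → W} (hf : Function.Injective f) (P : Pcs W M) (hP : Pure f P) (n : Fin M)
    (hn : ∃ v, f v ∉ P.V0 ∧ P.pc (f v) = n) (β : Bool) :
    cel P n β = (cel (res f P) n β).map (emb hf) := by
  unfold cel
  rw [ty_eq f P n hn]
  split_ifs
  · exact (map_pV hf P hP n hn).symm
  · exact (map_sV hf P hP n hn β).symm

theorem lbl_eq (f : V → W) (P : Pcs W M) (v : V) (hv : f v ∉ P.V0) :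
    lbl (res f P) v = lbl P (f v) := by
  unfold lbl
  have h1 : (res f P).ty ((res f P).pc v) = P.ty (P.pc (f v)) := ty_res f P _ v hv rfl
  rw [h1]
  rfl

theorem clb_map {f : V → W} (hf : Function.Injective f) (P : Pcs W M) (hP : Pure f P) (n : Fin M)
    (hn : ∃ v, f v ∉ P.V0 ∧ P.pc (f v) = n) (β : Bool) (i : Fin 3) :
    clb P n β i = (clb (res f P) n β i).map (emb hf) := by
  rw [clb, clb, cel_map hf P hP n hn β]
  ext w
  rw [mem_filter, mem_map, mem_map]
  have key : ∀ v ∈ cel (res f P) n β, lbl (res f P) v = lbl P (f v) := by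
    intro v hv
    have h1 := cel_sub (res f P) n β hv
    rw [pV, mem_filter] at h1
    exact lbl_eq f P v fun h => h1.2.1 ((mem_V0 f P v).2 h)
  constructor
  · rintro ⟨⟨v, hv, rfl⟩, h⟩
    refine ⟨v, mem_filter.2 ⟨hv, ?_⟩, rfl⟩
    rw [key v hv]
    exact h
  · rintro ⟨v, hv, rfl⟩
    rw [mem_filter] at hv
    refine ⟨⟨v, hv.1, rfl⟩, ?_⟩
    rw [← hv.2, key v hv.1]
    rfl

theorem rr_eq (f : V → W) (P : Pcs W M) (n : Fin M)
    (hn : ∃ v, f v ∉ P.V0 ∧ P.pc (f v) = n) : rr (res f P) n = rr P n := by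
  unfold rr
  rw [ty_eq f P n hn]

theorem nbt_inter {x d : ℕ} {G : SimpleGraph V} {ex : V → ℕ} {G' : SimpleGraph W} {f : V → W}
    (hE : ExtP x d G ex G' f) (P : Pcs W M) (z : V) (S : Finset V) :
    nb (thin G' P) (f z) ∩ S.map (emb hE.inj) =
      (nb (thin G (res f P)) z ∩ S).map (emb hE.inj) := by
  ext w
  rw [mem_inter, mem_map, mem_map, mem_nb]
  constructor
  · rintro ⟨h1, v, hv, rfl⟩
    exact ⟨v, mem_inter.2 ⟨(mem_nb _ z v).2 ((thin_res hE P z v).1 h1), hv⟩, rfl⟩
  · rintro ⟨v, hv, rfl⟩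
    rw [mem_inter, mem_nb] at hv
    exact ⟨(thin_res hE P z v).2 hv.1, v, hv.2, rfl⟩

theorem eb_map {x d : ℕ} {G : SimpleGraph V} {ex : V → ℕ} {G' : SimpleGraph W} {f : V → W}
    (hE : ExtP x d G ex G' f) (P : Pcs W M) (A B : Finset V) :
    eb (thin G' P) (A.map (emb hE.inj)) (B.map (emb hE.inj)) = eb (thin G (res f P)) A B := by
  unfold eb
  rw [sum_map]
  refine sum_congr rfl fun v _ => ?_
  change (nb (thin G' P) (f v) ∩ B.map (emb hE.inj)).card = _
  rw [nbt_inter hE P v B, card_map]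

theorem okc_map {x d : ℕ} {G : SimpleGraph V} {ex : V → ℕ} {G' : SimpleGraph W} {f : V → W}
    (hE : ExtP x d G ex G' f) (P : Pcs W M) (hP : Pure f P) (n : Fin M)
    (hn : ∃ v, f v ∉ P.V0 ∧ P.pc (f v) = n) (β : Bool) (z : V) :
    Okc P (nb G' (f z)) n β ↔ Okc (res f P) (nb G z) n β := by
  unfold Okc
  rw [rr_eq f P n hn, cel_map hE.inj P hP n hn β, nb_inter hE z, card_map]
  refine forall_congr' fun i => ?_
  rw [clb_map hE.inj P hP n hn β i, nb_inter hE z, card_map]

theorem okc_empty (f : V → W) (P : Pcs W M) (n : Fin M) (β : Bool) (S : Finset V)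
    (hn : ¬ ∃ v, f v ∉ P.V0 ∧ P.pc (f v) = n) : Okc (res f P) S n β := by
  intro i _
  rw [clb_empty f P n β i hn, cel_empty f P n β hn, inter_empty, card_empty]
  simp

/-- Restriction of `PartD`. -/
theorem partq_res {x d : ℕ} {G : SimpleGraph V} {ex : V → ℕ} {G' : SimpleGraph W} {f : V → W}
    {K ζ ε T : ℝ} {P : Pcs W M} (hE : ExtP x d G ex G' f) (hP : Pure f P)
    (hD : PartD K ζ ε G' d P) (hT : K / ε * P.V0.card ≤ T) :
    PartQ K ζ ε T G ex d (res f P) := by
  refine { eP := ?_, big := ?_, bad := ?_, bN := ?_ }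
  · intro n m β β' hK i j hi hj
    by_cases hn : ∃ v, f v ∉ P.V0 ∧ P.pc (f v) = n
    · by_cases hm : ∃ v, f v ∉ P.V0 ∧ P.pc (f v) = m
      · have h1 := hD.eP n m β β'
        rw [cel_map hE.inj P hP n hn β, cel_map hE.inj P hP m hm β', eb_map hE P] at h1
        have h2 := h1 hK i j (by rw [← rr_eq f P n hn]; exact hi)
          (by rw [← rr_eq f P m hm]; exact hj)
        rw [clb_map hE.inj P hP n hn β i, clb_map hE.inj P hP m hm β' j, eb_map hE P,
          ← rr_eq f P n hn, ← rr_eq f P m hm] at h2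
        exact h2
      · have h1 : ∀ (A : Finset V), eb (thin G (res f P)) A (∅ : Finset V) = 0 := by
          intro A
          unfold eb
          refine sum_eq_zero fun v _ => ?_
          rw [inter_empty, card_empty]
        rw [clb_empty f P m β' j hm, cel_empty f P m β' hm, h1, h1]
        simp
    · have h1 : ∀ (A : Finset V), eb (thin G (res f P)) (∅ : Finset V) A = 0 := by
        intro A
        unfold eb
        rw [sum_empty]
      rw [clb_empty f P n β i hn, cel_empty f P n β hn, h1, h1]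
      simp
  · intro z hz n β h
    by_cases hn : ∃ v, f v ∉ P.V0 ∧ P.pc (f v) = n
    · have h1 := hD.big (f z) ((mem_V0 f P z).1 hz) n β
      rw [okc_map hE P hP n hn β z, cel_map hE.inj P hP n hn β, nb_inter hE z, card_map] at h1
      exact h1 h
    · exact okc_empty f P n β _ hn
  · refine le_trans ?_ (hD.bad.trans hT)
    have h1 : ∑ z ∈ (res f P).V0, ∑ n, ∑ β, (if 1 / ε ≤
        ((nb G z ∩ cel (res f P) n β).card : ℝ) ∧ Okc (res f P) (nb G z) n β then (0 : ℝ) else
          ((nb G z ∩ cel (res f P) n β).card : ℝ)) ≤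
        ∑ z ∈ (res f P).V0.map (emb hE.inj), ∑ n, ∑ β, (if 1 / ε ≤
          ((nb G' z ∩ cel P n β).card : ℝ) ∧ Okc P (nb G' z) n β then (0 : ℝ) else
            ((nb G' z ∩ cel P n β).card : ℝ)) := by
      rw [sum_map]
      refine sum_le_sum fun z _ => sum_le_sum fun n _ => sum_le_sum fun β _ => ?_
      change _ ≤ (if 1 / ε ≤ ((nb G' (f z) ∩ cel P n β).card : ℝ) ∧ Okc P (nb G' (f z)) n β then
        (0 : ℝ) else ((nb G' (f z) ∩ cel P n β).card : ℝ))
      by_cases hn : ∃ v, f v ∉ P.V0 ∧ P.pc (f v) = n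
      · rw [okc_map hE P hP n hn β z, cel_map hE.inj P hP n hn β, nb_inter hE z, card_map]
      · have h2 : (if 1 / ε ≤ ((nb G z ∩ cel (res f P) n β).card : ℝ) ∧
            Okc (res f P) (nb G z) n β then (0 : ℝ) else
              ((nb G z ∩ cel (res f P) n β).card : ℝ)) = 0 := by
          rw [cel_empty f P n β hn, inter_empty, card_empty]
          simp
        rw [h2]
        split_ifs
        · exact le_refl _
        · exact Nat.cast_nonneg _
    refine h1.trans (sum_le_sum_of_subset_of_nonneg ?_ ?_)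
    · intro w hw
      rw [mem_map] at hw
      obtain ⟨v, hv, rfl⟩ := hw
      exact (mem_V0 f P v).1 hv
    · intro z _ _
      refine sum_nonneg fun n _ => sum_nonneg fun β _ => ?_
      split_ifs
      · exact le_refl _
      · exact Nat.cast_nonneg _
  · intro n hn
    obtain ⟨h1, h2⟩ := nty f P n _ (by decide) hn
    have h3 := hD.bN n h2
    rw [← map_sV hE.inj P hP n h1, ← map_sV hE.inj P hP n h1, sum_map, sum_map] at h3
    have h4 : ∀ v : V, ((nb (thin G' P) ((emb hE.inj) v)).card : ℝ) =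
        ((nb (thin G (res f P)) v).card : ℝ) + ex v := by
      intro v
      change ((nb (thin G' P) (f v)).card : ℝ) = _
      rw [nb_thin hE P hP v]
      push_cast
      ring
    simp only [h4] at h3
    exact h3

end res

end Pool.Agent.Work.MP_db9399_cl.helper26
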