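import Pool.Agent.Work.MP_db9399_cl_helper26.Res

/-!
# MP_db9399, all scales, clusters: purity of the pieces and restriction of `DecP` (helper26)
-/

set_option autoImplicit false
set_option linter.unusedSectionVars false

namespace Pool.Agent.Work.MP_db9399_cl.helper26

open Finset Classical
open Pool.Agent.Work.MP_db9399_all (nb)
open Pool.Agent.Work.MP_db9399_da

universe u

section res
variable {V W : Type u} [Fintype V] [Fintype W] {M : ℕ}

/-- bulk degree of a member of a piece -/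
theorem bulk_deg (G' : SimpleGraph W) (P : Pcs W M) (n : Fin M) (u : Ts P n) :
    (nb G' u.1).card = (nb (bk G' P n) u).card + (nb (thin G' P) u.1).card := by
  have h1 : nb G' u.1 = nb (bulk G' P) u.1 ∪ nb (thin G' P) u.1 := by
    ext w
    rw [mem_union, mem_nb, mem_nb, mem_nb]
    constructor
    · intro h
      by_cases hb : (bulk G' P).Adj u.1 w
      · exact Or.inl hb
      · exact Or.inr ⟨h, hb⟩
    · rintro (h | h)
      · exact h.1
      · exact h.1
  have h2 : Disjoint (nb (bulk G' P) u.1) (nb (thin G' P) u.1) := by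
    rw [disjoint_left]
    intro w hw hw'
    rw [mem_nb] at hw hw'
    exact hw'.2 hw
  have h3 : (nb (bulk G' P) u.1).card = (nb (bk G' P n) u).card := by
    symm
    refine card_bij (fun w _ => w.1) ?_ ?_ ?_
    · intro w hw
      rw [mem_nb] at hw ⊢
      exact hw
    · intro w _ w' _ h
      exact Subtype.ext h
    · intro w hw
      rw [mem_nb] at hw
      refine ⟨⟨w, hw.2.2.1, hw.2.2.2.1.symm.trans u.2.2⟩, ?_, rfl⟩
      rw [mem_nb]
      exact hw
  rw [h1, card_union_of_disjoint h2, h3]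

theorem pure_of {x d : ℕ} {G : SimpleGraph V} {ex : V → ℕ} {G' : SimpleGraph W} {f : V → W}
    {C g ρ ζ θ : ℝ} {P : Pcs W M} (hE : ExtP x d G ex G' f) (hD : DecP C g ρ ζ θ G' d P)
    (hρ : 0 < ρ) (hρ1 : ρ ≤ 1) (hg : g ≤ 1 / 10) (hζ : ζ ≤ 1 / 100)
    (hx : (x : ℝ) ≤ ρ / 10 * d) (hd : 1 ≤ d) : Pure f P := by
  intro v hv w hw hvw
  by_contra hwr
  set n := P.pc (f v) with hn
  have hd' : (1 : ℝ) ≤ d := by exact_mod_cast hd
  set S : Finset (Ts P n) := univ.filter (fun u => u.1 ∈ Set.range f) with hS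
  let a0 : Ts P n := ⟨f v, hv, rfl⟩
  let b0 : Ts P n := ⟨w, hw, hvw⟩
  have ha : a0 ∈ S := mem_filter.2 ⟨mem_univ _, v, rfl⟩
  have hb : b0 ∉ S := fun h => hwr (mem_filter.1 h).2
  have hSx : ∀ u ∈ S, (nb (bk G' P n) u \ S).card ≤ x := by
    intro u hu
    obtain ⟨v', hv'⟩ := (mem_filter.1 hu).2
    refine le_trans ?_ (hE.exx v')
    rw [← nb_new hE v']
    refine card_le_card_of_injOn (fun z => z.1) ?_ (fun z _ z' _ h => Subtype.ext h)
    intro z hz
    rw [Finset.mem_coe, mem_sdiff, mem_nb] at hz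
    rw [Finset.mem_coe, mem_filter, mem_nb]
    refine ⟨?_, fun h => hz.2 (mem_filter.2 ⟨mem_univ _, h⟩)⟩
    rw [hv']
    exact hz.1.1
  have hTx : ∀ u, u ∉ S → (nb (bk G' P n) u ∩ S).card ≤ x := by
    intro u hu
    have hu' : u.1 ∉ Set.range f := fun h => hu (mem_filter.2 ⟨mem_univ _, h⟩)
    refine le_trans ?_ (hE.gad u.1 hu')
    rw [← card_map (emb hE.inj)]
    refine card_le_card_of_injOn (fun z => z.1) ?_ (fun z _ z' _ h => Subtype.ext h)
    intro z hz
    rw [Finset.mem_coe, mem_inter, mem_nb] at hz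
    obtain ⟨v', hv'⟩ := (mem_filter.1 hz.2).2
    rw [Finset.mem_coe, mem_map]
    refine ⟨v', mem_filter.2 ⟨mem_univ _, ?_⟩, hv'⟩
    rw [hv']
    exact hz.1.1
  have hdeg : ∀ u : Ts P n, (1 - ζ) * d ≤ ((nb (bk G' P n) u).card : ℝ) := by
    intro u
    have h1 := bulk_deg G' P n u
    rw [hE.reg] at h1
    have h2 := hD.thd u.1 u.2.1
    have h3 : (d : ℝ) = (nb (bk G' P n) u).card + (nb (thin G' P) u.1).card := by
      exact_mod_cast h1
    linarith
  have hSc : (1 - ζ) * d - x ≤ (S.card : ℝ) := by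
    have h1 := card_sdiff_add_card_inter (nb (bk G' P n) a0) S
    have h2 := hSx a0 ha
    have h3 : (nb (bk G' P n) a0 ∩ S).card ≤ S.card := card_le_card inter_subset_right
    have h4 := hdeg a0
    have h5 : ((nb (bk G' P n) a0).card : ℝ) ≤ x + S.card := by
      have : (nb (bk G' P n) a0).card ≤ x + S.card := by omega
      exact_mod_cast this
    linarith
  have hTc : (1 - ζ) * d - x ≤ ((univ \ S).card : ℝ) := by
    have h1 := card_sdiff_add_card_inter (nb (bk G' P n) b0) S
    have h2 := hTx b0 hb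
    have h3 : (nb (bk G' P n) b0 \ S).card ≤ (univ \ S).card :=
      card_le_card (sdiff_subset_sdiff (subset_univ _) (Subset.refl _))
    have h4 := hdeg b0
    have h5 : ((nb (bk G' P n) b0).card : ℝ) ≤ x + (univ \ S).card := by
      have : (nb (bk G' P n) b0).card ≤ x + (univ \ S).card := by omega
      exact_mod_cast this
    linarith
  have hx1 : (x : ℝ) ≤ d / 10 := by
    have : ρ / 10 * d ≤ 1 / 10 * d := by
      refine mul_le_mul_of_nonneg_right ?_ (by positivity)
      linarith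
    linarith
  have hcard : (S.card : ℝ) + (univ \ S).card = Fintype.card (Ts P n) := by
    have h1 := card_sdiff_add_card_eq_card (subset_univ S)
    have h2 : S.card + (univ \ S).card = Fintype.card (Ts P n) := by
      rw [← card_univ]
      omega
    exact_mod_cast h2
  have hbig : (8 / 10 : ℝ) * d ≤ S.card := by nlinarith
  have key : P.ty n = Ty.N ∨ P.ty n = Ty.B → False := by
    intro hty
    have h1 := hD.cut n hty (univ \ S)
    have h2 : univ \ (univ \ S) = S := by
      ext u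
      simp
    have h3 : ∑ u ∈ univ \ S, ((nb (bk G' P n) u \ (univ \ S)).card : ℝ) ≤
        ∑ _u ∈ univ \ S, (x : ℝ) := by
      refine sum_le_sum fun u hu => ?_
      have h4 : nb (bk G' P n) u \ (univ \ S) = nb (bk G' P n) u ∩ S := by
        ext z
        simp
      rw [h4]
      exact_mod_cast hTx u (mem_sdiff.1 hu).2
    rw [h2] at h1
    rw [sum_const, nsmul_eq_mul] at h3
    have h5 := h1.trans h3
    have h6 : (0 : ℝ) < (univ \ S).card := by
      have : 0 < (univ \ S).card := card_pos.2 ⟨b0, mem_sdiff.2 ⟨mem_univ _, hb⟩⟩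
      exact_mod_cast this
    have h7 : ρ * S.card ≤ x := by
      by_contra hcon
      push Not at hcon
      nlinarith
    have h8 : ρ * (8 / 10 * d) ≤ ρ * S.card := mul_le_mul_of_nonneg_left hbig hρ.le
    nlinarith [mul_pos hρ (show (0 : ℝ) < d by linarith)]
  rcases hty : P.ty n with _ | _ | _ | _
  · exact (hD.emp n hty).false a0
  · have h1 := hD.kU n hty
    rw [← hcard] at h1
    nlinarith
  · exact key (Or.inl hty)
  · exact key (Or.inr hty)

/-- Restriction of `DecP`. -/
theorem decq_res {x d : ℕ} {G : SimpleGraph V} {ex : V → ℕ} {G' : SimpleGraph W} {f : V → W}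
    {C g ρ ζ θ : ℝ} {P : Pcs W M} (hE : ExtP x d G ex G' f) (hD : DecP C g ρ ζ θ G' d P)
    (hρ : 0 < ρ) (hρ1 : ρ ≤ 1) (hg : g ≤ 1 / 10) (hζ : ζ ≤ 1 / 100)
    (hx : (x : ℝ) ≤ ρ / 10 * d) (hd : 1 ≤ d) : DecQ C g ρ ζ θ G ex d (res f P) := by
  have hP : Pure f P := pure_of hE hD hρ hρ1 hg hζ hx hd
  have hd' : (1 : ℝ) ≤ d := by exact_mod_cast hd
  have hx1 : (x : ℝ) ≤ d / 10 := by
    have : ρ / 10 * d ≤ 1 / 10 * d := by
      refine mul_le_mul_of_nonneg_right ?_ (by positivity)
      linarith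
    linarith
  -- type of a nonempty piece
  have hty : ∀ n T, T ≠ Ty.E → (res f P).ty n = T →
      (∃ v, f v ∉ P.V0 ∧ P.pc (f v) = n) ∧ P.ty n = T := by
    intro n T hT h
    have h1 := ty_ne f P n (by rw [h]; exact hT)
    obtain ⟨v, hv, hvn⟩ := h1
    refine ⟨⟨v, hv, hvn⟩, ?_⟩
    rw [← ty_res f P n v hv hvn]
    exact h
  refine { reg := hE.deg, siz := ?_, V0c := ?_, thd := ?_, ths := ?_, emp := ?_, kL := ?_,
           kU := ?_, hubK := ?_, hubB := ?_, out := ?_, rgd := ?_, rgs := ?_, nL := ?_, n4 := ?_,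
           bal := ?_, cut := ?_, nbi := ?_ }
  · refine le_trans ?_ hD.siz
    exact_mod_cast Fintype.card_le_of_injective f hE.inj
  · refine le_trans ?_ hD.V0c
    have h1 : (res f P).V0.card ≤ P.V0.card := by
      rw [← card_map (emb hE.inj)]
      refine card_le_card fun w hw => ?_
      rw [mem_map] at hw
      obtain ⟨v, hv, rfl⟩ := hw
      exact (mem_V0 f P v).1 hv
    exact_mod_cast h1
  · intro v hv
    have h1 := hD.thd (f v) (fun h => hv ((mem_V0 f P v).2 h))
    rw [nb_thin hE P hP v] at h1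
    push_cast at h1
    exact h1
  · refine le_trans ?_ hD.ths
    have h1 : ∑ v ∈ univ \ (res f P).V0, (((nb (thin G (res f P)) v).card : ℝ) + ex v) =
        ∑ w ∈ (univ \ (res f P).V0).map (emb hE.inj), ((nb (thin G' P) w).card : ℝ) := by
      rw [sum_map]
      refine sum_congr rfl fun v _ => ?_
      change _ = ((nb (thin G' P) (f v)).card : ℝ)
      rw [nb_thin hE P hP v]
      push_cast
      ring
    rw [h1]
    refine sum_le_sum_of_subset_of_nonneg ?_ (fun _ _ _ => Nat.cast_nonneg _)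
    intro w hw
    rw [mem_map] at hw
    obtain ⟨v, hv, rfl⟩ := hw
    rw [mem_sdiff] at hv ⊢
    exact ⟨mem_univ _, fun h => hv.2 ((mem_V0 f P v).2 h)⟩
  · intro n hn
    by_contra hcon
    rw [not_isEmpty_iff] at hcon
    obtain ⟨v⟩ := hcon
    have h1 : f v.1 ∉ P.V0 := fun h => v.2.1 ((mem_V0 f P v.1).2 h)
    have h2 : (res f P).ty n = P.ty n := ty_res f P n v.1 h1 v.2.2
    exact (hD.emp n (h2.symm.trans hn)).false ⟨f v.1, h1, v.2.2⟩
  · intro n hn
    obtain ⟨h1, h2⟩ := hty n _ (by decide) hn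
    rw [card_eT hE.inj P hP n h1]
    exact hD.kL n h2
  · intro n hn
    obtain ⟨h1, h2⟩ := hty n _ (by decide) hn
    rw [card_eT hE.inj P hP n h1]
    exact hD.kU n h2
  · intro n hn z hz
    obtain ⟨h1, h2⟩ := hty n _ (by decide) hn
    have h3 := hD.hubK n h2 (f z) ((mem_V0 f P z).1 hz)
    rw [← map_pV hE.inj P hP n h1, sdiff_nb hE, card_map] at h3
    exact h3
  · intro n β hn z hz hr
    obtain ⟨h1, h2⟩ := hty n _ (by decide) hn
    have h3 := hD.hubB n β h2 (f z) ((mem_V0 f P z).1 hz) hr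
    rw [← map_sV hE.inj P hP n h1, sdiff_nb hE, card_map] at h3
    exact h3
  · intro n β hn z hz hr
    obtain ⟨h1, h2⟩ := hty n _ (by decide) hn
    have h3 := hD.out n β h2 (f z) ((mem_V0 f P z).1 hz) hr
    rw [← map_sV hE.inj P hP n h1, nb_sdiff hE] at h3
    push_cast at h3
    exact h3
  · intro z hz n β hr
    obtain ⟨h1, h2⟩ := hD.rgd (f z) ((mem_V0 f P z).1 hz) n β hr
    -- the piece contains an old vertex
    have h3 : ∃ v, f v ∉ P.V0 ∧ P.pc (f v) = n := by
      by_contra hcon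
      have h4 : nb G' (f z) ∩ sV P n β ⊆ (nb G' (f z)).filter (fun w => w ∉ Set.range f) := by
        intro w hw
        rw [mem_inter] at hw
        rw [mem_filter]
        refine ⟨hw.1, ?_⟩
        rintro ⟨v, rfl⟩
        have h5 := (mem_filter.1 hw.2).2
        exact hcon ⟨v, h5.1, h5.2.1⟩
      have h5 := card_le_card h4
      rw [nb_new hE z] at h5
      have h6 := card_sdiff_add_card_inter (nb G' (f z)) (sV P n β)
      rw [hE.reg] at h6
      have h7 : (d : ℝ) = (nb G' (f z) \ sV P n β).card + (nb G' (f z) ∩ sV P n β).card := by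
        exact_mod_cast h6.symm
      have h8 : ((nb G' (f z) ∩ sV P n β).card : ℝ) ≤ x := by
        exact_mod_cast h5.trans (hE.exx z)
      nlinarith
    obtain ⟨v, hv, hvn⟩ := h3
    refine ⟨?_, ?_⟩
    · rw [ty_res f P n v hv hvn]
      exact h1
    · rw [← map_sV hE.inj P hP n ⟨v, hv, hvn⟩, nb_sdiff hE] at h2
      push_cast at h2
      exact h2
  · intro z hz z' hz' n β β' h1 h2
    exact hD.rgs (f z) ((mem_V0 f P z).1 hz) (f z') ((mem_V0 f P z').1 hz') n β β' h1 h2
  · intro n hn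
    obtain ⟨h1, h2⟩ := hty n _ (by decide) hn
    rw [card_eT hE.inj P hP n h1]
    exact hD.nL n h2
  · intro n hn
    obtain ⟨h1, h2⟩ := hty n _ (by decide) hn
    rw [card_eT hE.inj P hP n h1]
    exact hD.n4 n h2
  · intro n hn
    obtain ⟨h1, h2⟩ := hty n _ (by decide) hn
    have h3 := hD.bal n h2
    rw [← map_sV hE.inj P hP n h1, ← map_sV hE.inj P hP n h1, card_map, card_map] at h3
    exact h3
  · intro n hn S
    obtain ⟨h1, h2⟩ : (∃ v, f v ∉ P.V0 ∧ P.pc (f v) = n) ∧ (P.ty n = Ty.N ∨ P.ty n = Ty.B) := by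
      rcases hn with hn | hn
      · obtain ⟨h1, h2⟩ := hty n _ (by decide) hn
        exact ⟨h1, Or.inl h2⟩
      · obtain ⟨h1, h2⟩ := hty n _ (by decide) hn
        exact ⟨h1, Or.inr h2⟩
    have h3 := hD.cut n h2 (S.map (eT f hE.inj P hP n h1).toEmbedding)
    have h4 : (univ : Finset (Ts P n)) =
        univ.map (eT f hE.inj P hP n h1).toEmbedding := (map_univ_equiv _).symm
    rw [h4, ← Finset.map_sdiff, card_map, card_map, sum_map] at h3
    refine h3.trans (le_of_eq (sum_congr rfl fun v _ => ?_))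
    rw [Equiv.toEmbedding_apply, nb_eT hE P hP n h1 v, ← Finset.map_sdiff, card_map]
  · intro n hn S
    obtain ⟨h1, h2⟩ := hty n _ (by decide) hn
    have h3 := hD.nbi n h2 (S.map (eT f hE.inj P hP n h1).toEmbedding)
    have h4 : (univ : Finset (Ts P n)) =
        univ.map (eT f hE.inj P hP n h1).toEmbedding := (map_univ_equiv _).symm
    rw [h4, ← Finset.map_sdiff, sum_map, sum_map] at h3
    refine h3.trans (le_of_eq ?_)
    congr 1
    · refine sum_congr rfl fun v _ => ?_
      rw [Equiv.toEmbedding_apply, nb_eT hE P hP n h1 v, ← Finset.map_inter, card_map]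
    · refine sum_congr rfl fun v _ => ?_
      rw [Equiv.toEmbedding_apply, nb_eT hE P hP n h1 v, ← Finset.map_sdiff, card_map]

end res

end Pool.Agent.Work.MP_db9399_cl.helper26
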