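import Pool.Agent.Work.MP_db9399_cl_helper26.Ext

/-!
# MP_db9399, all scales, clusters: decompositions of near-regular graphs (helper26)

`DecQ`: as `DecP` for a graph with `deg v + ex v = d`. The pieces of the regular supergraph are pure
and can be restricted.
-/

set_option autoImplicit false
set_option linter.unusedSectionVars false

namespace Pool.Agent.Work.MP_db9399_cl.helper26

open Finset Classical
open Pool.Agent.Work.MP_db9399_all (nb)
open Pool.Agent.Work.MP_db9399_da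

universe u

section defs
variable {V : Type u} [Fintype V] {M : ℕ}

/-- `DecP` for a graph with `deg v + ex v = d` (`ex v`: number of further prescribed edges). -/
structure DecQ (C g ρ ζ θ : ℝ) (G : SimpleGraph V) (ex : V → ℕ) (d : ℕ) (P : Pcs V M) :
    Prop where
  reg : ∀ v, (nb G v).card + ex v = d
  siz : (Fintype.card V : ℝ) ≤ C * d
  V0c : (P.V0.card : ℝ) ≤ θ * d
  thd : ∀ v, v ∉ P.V0 → ((nb (thin G P) v).card : ℝ) + ex v ≤ ζ * d
  ths : ∑ v ∈ univ \ P.V0, (((nb (thin G P) v).card : ℝ) + ex v) ≤ θ * (d : ℝ) ^ 2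
  emp : ∀ n, P.ty n = Ty.E → IsEmpty (Ts P n)
  kL : ∀ n, P.ty n = Ty.K → (1 - ζ) * d ≤ (Fintype.card (Ts P n) : ℝ)
  kU : ∀ n, P.ty n = Ty.K → (Fintype.card (Ts P n) : ℝ) ≤ (1 + g) * d
  hubK : ∀ n, P.ty n = Ty.K → ∀ z ∈ P.V0, ζ / 4 * d ≤ ((pV P n \ nb G z).card : ℝ)
  hubB : ∀ n β, P.ty n = Ty.B → ∀ z ∈ P.V0, P.rg z ≠ some (n, β) →
    ζ / 4 * d ≤ ((sV P n β \ nb G z).card : ℝ)
  out : ∀ n β, P.ty n = Ty.B → ∀ z ∈ P.V0, P.rg z ≠ some (n, β) →
    ζ / 4 * d ≤ ((nb G z \ sV P n β).card : ℝ) + ex z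
  rgd : ∀ z ∈ P.V0, ∀ n β, P.rg z = some (n, β) →
    P.ty n = Ty.B ∧ ((nb G z \ sV P n β).card : ℝ) + ex z ≤ ζ * d
  rgs : ∀ z ∈ P.V0, ∀ z' ∈ P.V0, ∀ n β β', P.rg z = some (n, β) → P.rg z' = some (n, β') →
    β = β'
  nL : ∀ n, P.ty n = Ty.N → (1 + g / 2) * d ≤ (Fintype.card (Ts P n) : ℝ)
  n4 : ∀ n, P.ty n = Ty.N → 4 ∣ Fintype.card (Ts P n)
  bal : ∀ n, P.ty n = Ty.B → (sV P n false).card = (sV P n true).card
  cut : ∀ n, P.ty n = Ty.N ∨ P.ty n = Ty.B → ∀ S : Finset (Ts P n),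
    ρ * S.card * (univ \ S).card ≤ ∑ v ∈ S, ((nb (bk G P n) v \ S).card : ℝ)
  nbi : ∀ n, P.ty n = Ty.N → ∀ S : Finset (Ts P n), ρ * (d : ℝ) ^ 2 ≤
    ∑ v ∈ S, ((nb (bk G P n) v ∩ S).card : ℝ) +
      ∑ v ∈ univ \ S, ((nb (bk G P n) v \ S).card : ℝ)

/-- Result of PARTS for a near-regular graph (`PartD` with the further edges `ex`). `T` bounds the
total number of edges from `V0` to bad cells. -/
structure PartQ (K ζ ε T : ℝ) (G : SimpleGraph V) (ex : V → ℕ) (d : ℕ) (P : Pcs V M) : Prop where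
  eP : ∀ n m β β', K * ζ * d ≤ (eb (thin G P) (cel P n β) (cel P m β') : ℝ) →
    ∀ i j : Fin 3, i.val < rr P n → j.val < rr P m →
    |(eb (thin G P) (clb P n β i) (clb P m β' j) : ℝ) -
      (eb (thin G P) (cel P n β) (cel P m β') : ℝ) / (rr P n * rr P m)| ≤
      (eb (thin G P) (cel P n β) (cel P m β') : ℝ) / 100
  big : ∀ z ∈ P.V0, ∀ n β, ζ ^ 2 * d ≤ ((nb G z ∩ cel P n β).card : ℝ) → Okc P (nb G z) n β
  bad : ∑ z ∈ P.V0, ∑ n, ∑ β, (if 1 / ε ≤ ((nb G z ∩ cel P n β).card : ℝ) ∧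
    Okc P (nb G z) n β then (0 : ℝ) else ((nb G z ∩ cel P n β).card : ℝ)) ≤ T
  bN : ∀ n, P.ty n = Ty.N → |(∑ v ∈ sV P n false, (((nb (thin G P) v).card : ℝ) + ex v)) -
    ∑ v ∈ sV P n true, (((nb (thin G P) v).card : ℝ) + ex v)| ≤ K * ζ * d

end defs

section res
variable {V W : Type u} [Fintype V] [Fintype W] {M : ℕ}

/-- restriction of the pieces to `V` -/
noncomputable def res (f : V → W) (P : Pcs W M) : Pcs V M where
  V0 := univ.filter (fun v => f v ∈ P.V0)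
  pc v := P.pc (f v)
  ty n := if ∃ v, f v ∉ P.V0 ∧ P.pc (f v) = n then P.ty n else Ty.E
  rg v := P.rg (f v)
  sd v := P.sd (f v)
  pt v := P.pt (f v)
  th v := P.th (f v)

/-- a piece which meets the image of `V` is contained in it -/
def Pure (f : V → W) (P : Pcs W M) : Prop :=
  ∀ v, f v ∉ P.V0 → ∀ w, w ∉ P.V0 → P.pc w = P.pc (f v) → w ∈ Set.range f

theorem mem_V0 (f : V → W) (P : Pcs W M) (v : V) : v ∈ (res f P).V0 ↔ f v ∈ P.V0 := by
  change v ∈ univ.filter (fun v => f v ∈ P.V0) ↔ _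
  rw [mem_filter]
  exact ⟨fun h => h.2, fun h => ⟨mem_univ _, h⟩⟩

theorem ty_res (f : V → W) (P : Pcs W M) (n : Fin M) (v : V) (hv : f v ∉ P.V0)
    (hn : P.pc (f v) = n) : (res f P).ty n = P.ty n := by
  change (if ∃ v, f v ∉ P.V0 ∧ P.pc (f v) = n then P.ty n else Ty.E) = _
  rw [if_pos ⟨v, hv, hn⟩]

theorem ty_ne (f : V → W) (P : Pcs W M) (n : Fin M) (h : (res f P).ty n ≠ Ty.E) :
    ∃ v, f v ∉ P.V0 ∧ P.pc (f v) = n := by
  by_contra hcon
  apply h
  change (if ∃ v, f v ∉ P.V0 ∧ P.pc (f v) = n then P.ty n else Ty.E) = _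
  rw [if_neg hcon]

theorem bulk_res {x d : ℕ} {G : SimpleGraph V} {ex : V → ℕ} {G' : SimpleGraph W} {f : V → W}
    (hE : ExtP x d G ex G' f) (P : Pcs W M) (v w : V) :
    (bulk G' P).Adj (f v) (f w) ↔ (bulk G (res f P)).Adj v w := by
  constructor
  · rintro ⟨h1, h2, h3, h4, h5⟩
    refine ⟨(hE.adj v w).1 h1, fun h => h2 ((mem_V0 f P v).1 h), fun h => h3 ((mem_V0 f P w).1 h),
      h4, fun h => h5 ?_⟩
    rw [← h]
    exact (ty_res f P _ v h2 rfl).symm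
  · rintro ⟨h1, h2, h3, h4, h5⟩
    have h2' : f v ∉ P.V0 := fun h => h2 ((mem_V0 f P v).2 h)
    refine ⟨(hE.adj v w).2 h1, h2', fun h => h3 ((mem_V0 f P w).2 h), h4, fun h => h5 ?_⟩
    rw [← h]
    exact ty_res f P _ v h2' rfl

theorem thin_res {x d : ℕ} {G : SimpleGraph V} {ex : V → ℕ} {G' : SimpleGraph W} {f : V → W}
    (hE : ExtP x d G ex G' f) (P : Pcs W M) (v w : V) :
    (thin G' P).Adj (f v) (f w) ↔ (thin G (res f P)).Adj v w := by
  change G'.Adj (f v) (f w) ∧ ¬ (bulk G' P).Adj (f v) (f w) ↔ G.Adj v w ∧ ¬ _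
  rw [bulk_res hE P v w, hE.adj v w]

/-- the embedding -/
def emb {f : V → W} (hf : Function.Injective f) : V ↪ W := ⟨f, hf⟩

theorem map_sub {f : V → W} (hf : Function.Injective f) (A : Finset W)
    (hA : ∀ w ∈ A, w ∈ Set.range f) : (univ.filter (fun v => f v ∈ A)).map (emb hf) = A := by
  ext w
  rw [mem_map]
  constructor
  · rintro ⟨v, hv, rfl⟩
    exact (mem_filter.1 hv).2
  · intro hw
    obtain ⟨v, rfl⟩ := hA w hw
    exact ⟨v, mem_filter.2 ⟨mem_univ _, hw⟩, rfl⟩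

/-- neighbours inside a set of old vertices -/
theorem nb_inter {x d : ℕ} {G : SimpleGraph V} {ex : V → ℕ} {G' : SimpleGraph W} {f : V → W}
    (hE : ExtP x d G ex G' f) (z : V) (S : Finset V) :
    nb G' (f z) ∩ S.map (emb hE.inj) = (nb G z ∩ S).map (emb hE.inj) := by
  ext w
  rw [mem_inter, mem_map, mem_map, mem_nb]
  constructor
  · rintro ⟨h1, v, hv, rfl⟩
    exact ⟨v, mem_inter.2 ⟨(mem_nb G z v).2 ((hE.adj z v).1 h1), hv⟩, rfl⟩
  · rintro ⟨v, hv, rfl⟩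
    rw [mem_inter, mem_nb] at hv
    exact ⟨(hE.adj z v).2 hv.1, v, hv.2, rfl⟩

theorem sdiff_nb {x d : ℕ} {G : SimpleGraph V} {ex : V → ℕ} {G' : SimpleGraph W} {f : V → W}
    (hE : ExtP x d G ex G' f) (z : V) (S : Finset V) :
    S.map (emb hE.inj) \ nb G' (f z) = (S \ nb G z).map (emb hE.inj) := by
  ext w
  rw [mem_sdiff, mem_map, mem_map, mem_nb]
  constructor
  · rintro ⟨⟨v, hv, rfl⟩, h1⟩
    exact ⟨v, mem_sdiff.2 ⟨hv, fun h => h1 ((hE.adj z v).2 ((mem_nb G z v).1 h))⟩, rfl⟩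
  · rintro ⟨v, hv, rfl⟩
    rw [mem_sdiff, mem_nb] at hv
    exact ⟨⟨v, hv.1, rfl⟩, fun h => hv.2 ((hE.adj z v).1 h)⟩

theorem nb_sdiff {x d : ℕ} {G : SimpleGraph V} {ex : V → ℕ} {G' : SimpleGraph W} {f : V → W}
    (hE : ExtP x d G ex G' f) (z : V) (S : Finset V) :
    (nb G' (f z) \ S.map (emb hE.inj)).card = (nb G z \ S).card + ex z := by
  have h1 := card_sdiff_add_card_inter (nb G' (f z)) (S.map (emb hE.inj))
  have h2 := card_sdiff_add_card_inter (nb G z) S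
  rw [nb_inter hE z S, card_map, hE.reg] at h1
  have h3 := hE.deg z
  omega

/-- new neighbours of an old vertex -/
theorem nb_new {x d : ℕ} {G : SimpleGraph V} {ex : V → ℕ} {G' : SimpleGraph W} {f : V → W}
    (hE : ExtP x d G ex G' f) (z : V) :
    ((nb G' (f z)).filter (fun w => w ∉ Set.range f)).card = ex z := by
  have h1 := nb_sdiff hE z univ
  have h2 : nb G' (f z) \ univ.map (emb hE.inj) = (nb G' (f z)).filter (fun w => w ∉ Set.range f) := by
    ext w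
    rw [mem_sdiff, mem_filter, mem_map]
    refine and_congr_right fun _ => not_congr ?_
    constructor
    · rintro ⟨v, _, rfl⟩
      exact ⟨v, rfl⟩
    · rintro ⟨v, rfl⟩
      exact ⟨v, mem_univ _, rfl⟩
  rw [h2] at h1
  have h3 : nb G z \ univ = ∅ := sdiff_eq_empty_iff_subset.2 (subset_univ _)
  rw [h1, h3, card_empty, zero_add]

/-- thin degrees of an old vertex -/
theorem nb_thin {x d : ℕ} {G : SimpleGraph V} {ex : V → ℕ} {G' : SimpleGraph W} {f : V → W}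
    (hE : ExtP x d G ex G' f) (P : Pcs W M) (hP : Pure f P) (z : V) :
    (nb (thin G' P) (f z)).card = (nb (thin G (res f P)) z).card + ex z := by
  rw [← nb_new hE z, ← card_map (emb hE.inj) (s := nb (thin G (res f P)) z), ← card_union_of_disjoint]
  · congr 1
    ext w
    rw [mem_union, mem_map, mem_filter, mem_nb, mem_nb]
    constructor
    · intro h
      by_cases hw : w ∈ Set.range f
      · obtain ⟨v, rfl⟩ := hw
        exact Or.inl ⟨v, (mem_nb _ _ _).2 ((thin_res hE P z v).1 h), rfl⟩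
      · exact Or.inr ⟨h.1, hw⟩
    · rintro (⟨v, hv, rfl⟩ | ⟨h1, h2⟩)
      · exact (thin_res hE P z v).2 ((mem_nb _ _ _).1 hv)
      · refine ⟨h1, fun h => h2 ?_⟩
        exact hP z h.2.1 w h.2.2.1 h.2.2.2.1.symm
  · rw [disjoint_left]
    intro w h1 h2
    rw [mem_map] at h1
    obtain ⟨v, _, rfl⟩ := h1
    exact (mem_filter.1 h2).2 ⟨v, rfl⟩

/-! ## Pieces -/

theorem card_Ts (P : Pcs V M) (n : Fin M) : Fintype.card (Ts P n) = (pV P n).card := by
  rw [Fintype.card_subtype]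
  rfl

theorem map_pV {f : V → W} (hf : Function.Injective f) (P : Pcs W M) (hP : Pure f P) (n : Fin M)
    (hn : ∃ v, f v ∉ P.V0 ∧ P.pc (f v) = n) : (pV (res f P) n).map (emb hf) = pV P n := by
  obtain ⟨v0, h1, h2⟩ := hn
  rw [← map_sub hf (pV P n)]
  · congr 1
    ext v
    rw [pV, pV, mem_filter, mem_filter, mem_filter, mem_V0]
    exact ⟨fun h => ⟨mem_univ _, mem_univ _, h.2⟩, fun h => ⟨mem_univ _, h.2.2⟩⟩
  · intro w hw
    rw [pV, mem_filter] at hw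
    exact hP v0 h1 w hw.2.1 (hw.2.2.trans h2.symm)

theorem map_sV {f : V → W} (hf : Function.Injective f) (P : Pcs W M) (hP : Pure f P) (n : Fin M)
    (hn : ∃ v, f v ∉ P.V0 ∧ P.pc (f v) = n) (β : Bool) :
    (sV (res f P) n β).map (emb hf) = sV P n β := by
  obtain ⟨v0, h1, h2⟩ := hn
  rw [← map_sub hf (sV P n β)]
  · congr 1
    ext v
    rw [sV, sV, mem_filter, mem_filter, mem_filter, mem_V0]
    exact ⟨fun h => ⟨mem_univ _, mem_univ _, h.2⟩, fun h => ⟨mem_univ _, h.2.2⟩⟩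
  · intro w hw
    rw [sV, mem_filter] at hw
    exact hP v0 h1 w hw.2.1 (hw.2.2.1.trans h2.symm)

/-- the vertices of a pure piece -/
noncomputable def eT (f : V → W) (hf : Function.Injective f) (P : Pcs W M) (hP : Pure f P)
    (n : Fin M) (hn : ∃ v, f v ∉ P.V0 ∧ P.pc (f v) = n) : Ts (res f P) n ≃ Ts P n :=
  Equiv.ofBijective (fun v => ⟨f v.1, fun h => v.2.1 ((mem_V0 f P v.1).2 h), v.2.2⟩)
    ⟨fun v w h => Subtype.ext (hf (congrArg Subtype.val h)), fun w => by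
      obtain ⟨v0, h1, h2⟩ := hn
      obtain ⟨v, hv⟩ := hP v0 h1 w.1 w.2.1 (w.2.2.trans h2.symm)
      refine ⟨⟨v, fun h => w.2.1 ?_, ?_⟩, Subtype.ext hv⟩
      · rw [← hv]
        exact (mem_V0 f P v).1 h
      · change P.pc (f v) = n
        rw [hv]
        exact w.2.2⟩

theorem eT_val (f : V → W) (hf : Function.Injective f) (P : Pcs W M) (hP : Pure f P)
    (n : Fin M) (hn : ∃ v, f v ∉ P.V0 ∧ P.pc (f v) = n) (v : Ts (res f P) n) :
    (eT f hf P hP n hn v).1 = f v.1 := rfl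

theorem nb_eT {x d : ℕ} {G : SimpleGraph V} {ex : V → ℕ} {G' : SimpleGraph W} {f : V → W}
    (hE : ExtP x d G ex G' f) (P : Pcs W M) (hP : Pure f P) (n : Fin M)
    (hn : ∃ v, f v ∉ P.V0 ∧ P.pc (f v) = n) (v : Ts (res f P) n) :
    nb (bk G' P n) (eT f hE.inj P hP n hn v) =
      (nb (bk G (res f P) n) v).map (eT f hE.inj P hP n hn).toEmbedding := by
  ext w
  rw [mem_nb, mem_map]
  constructor
  · intro h
    refine ⟨(eT f hE.inj P hP n hn).symm w, ?_, (eT f hE.inj P hP n hn).apply_symm_apply w⟩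
    rw [mem_nb]
    change (bulk G (res f P)).Adj _ _
    rw [← bulk_res hE P, ← eT_val f hE.inj P hP n hn, ← eT_val f hE.inj P hP n hn,
      Equiv.apply_symm_apply]
    exact h
  · rintro ⟨v', hv', rfl⟩
    rw [mem_nb] at hv'
    exact (bulk_res hE P v.1 v'.1).2 hv'

theorem card_eT {f : V → W} (hf : Function.Injective f) (P : Pcs W M) (hP : Pure f P)
    (n : Fin M) (hn : ∃ v, f v ∉ P.V0 ∧ P.pc (f v) = n) :
    Fintype.card (Ts (res f P) n) = Fintype.card (Ts P n) :=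
  Fintype.card_congr (eT f hf P hP n hn)

end res

end Pool.Agent.Work.MP_db9399_cl.helper26
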